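import Pool.Agent.W214.KS.BXBK
import Pool.Agent.W23.KI.Defs

/-!
KI project (helper23), task BXBI: the Bessel inequality for systems of linear forms with the sieve
weights of the systems, on the integers (adapted from `W214/KS/BXBK.lean`).
-/

set_option autoImplicit false

namespace Pool.Agent.W973.KI

open Finset
open Pool.Agent.H442R2
open Pool.Agent.H442R2.KF
open Pool.Agent.W23.DC
open Pool.Agent.W23.SG
open Pool.Agent.W23.KT
open Pool.Agent.W23.KS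
open Pool.Agent.W23.PL (P1 xx DW Ev LF)
open Pool.Agent.W363.KT
open Pool.Agent.W500.PL (xx_or xx_nonneg xx_le_one abs_xx Ev_bdd th1 th1_DW Ev_th1 summ_mul point_diag
  point_off ev_log)
open Pool.Agent.W214.KS (hatk_th1 diag_gen off_gen ev_errK ev_powK fin_constK numK)
open Pool.Agent.W23.KI (lam1 DI St_LAM St_BXBI)

lemma SysK.two {k M N : ℕ} {S : Finset (ℤ × ℕ)} (h : SysK k M N S) {N' : ℕ} (hN : N ≤ N') :
    SysK k M N' S := by
  have hNr : (N : ℝ) ≤ N' := by exact_mod_cast hN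
  have hp : (N : ℝ) ^ M ≤ (N' : ℝ) ^ M := pow_le_pow_left₀ (Nat.cast_nonneg _) hNr M
  refine ⟨⟨h.sys.card, fun L hL => ?_⟩, h.nz⟩
  have h1 := h.sys.fo L hL
  exact ⟨h1.a.trans hp, h1.b1, h1.b2.trans hp, h1.cop⟩

/-- the signs -/
noncomputable def co (k : ℕ) (f : ℕ → ℝ) (N : ℕ) (S : Finset (ℤ × ℕ)) (T : Finset ℕ) (d : ℕ) : ℝ :=
  if d ∈ T then (if 0 ≤ DI k f N S d then 1 else -1) else 0

theorem co_bd (k : ℕ) (f : ℕ → ℝ) (N : ℕ) (S : Finset (ℤ × ℕ)) (T : Finset ℕ) (d : ℕ) :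
    |co k f N S T d| ≤ 1 := by
  unfold co
  split_ifs <;> simp

theorem co_mem {k : ℕ} {f : ℕ → ℝ} {N : ℕ} {S : Finset (ℤ × ℕ)} {T : Finset ℕ} {d : ℕ}
    (h : co k f N S T d ≠ 0) : d ∈ T := by
  by_contra hd
  exact h (by unfold co; rw [if_neg hd])

theorem co_mul {k : ℕ} {f : ℕ → ℝ} {N : ℕ} {S : Finset (ℤ × ℕ)} {T : Finset ℕ} {d : ℕ}
    (h : d ∈ T) : co k f N S T d * DI k f N S d = |DI k f N S d| := by
  unfold co
  rw [if_pos h]
  split_ifs with h0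
  · rw [one_mul, abs_of_nonneg h0]
  · rw [neg_one_mul, abs_of_neg (not_le.1 h0)]

theorem DI_eq (k : ℕ) (f : ℕ → ℝ) (N : ℕ) (S : Finset (ℤ × ℕ)) (d : ℕ) :
    DI k f N S d = ∑ n ∈ Icc 1 N, f n * dk k d (Fp S n) := by
  classical
  unfold DI dk
  rw [Finset.sum_filter, Finset.sum_mul, ← Finset.sum_sub_distrib]
  apply Finset.sum_congr rfl
  intro n _
  split_ifs <;> ring

theorem RK_eq (k : ℕ) (f : ℕ → ℝ) (N X : ℕ) (S : Finset (ℤ × ℕ)) (T : Finset ℕ)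
    (hT : ∀ d ∈ T, 1 < d ∧ d ≤ X) (n : ℤ) :
    RK k (co k f N S T) X S n = ∑ d ∈ T, co k f N S T d * dk k d (Fp S n) := by
  unfold RK
  symm
  apply Finset.sum_subset
  · intro d hd
    exact Finset.mem_Icc.2 ⟨(hT d hd).1.le, (hT d hd).2⟩
  · intro d _ hd
    have : co k f N S T d = 0 := by
      by_contra h
      exact hd (co_mem h)
    rw [this, zero_mul]

/-- the integer side -/
theorem prI (k M : ℕ) {ε : ℝ} (hε : 0 < ε) (N X : ℕ) (hN2 : 2 ≤ N) (hXN : X ≤ N)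
    (f : ℕ → ℝ) (hf : ∀ p, |f p| ≤ 1) (S : Finset (ℤ × ℕ)) (hS : Sys k M N S)
    (T : Finset ℕ) (hT : ∀ d ∈ T, Mo ((N : ℝ) ^ ε) X S d) :
    ∃ c : ℕ → ℝ, CofK ((N : ℝ) ^ ε) X S c ∧ (∀ d, c d ≠ 0 → d ∈ T) ∧
      ∑ d ∈ T, |DI k f N S d| ≤
        |∑ p ∈ Icc 1 N, f p * rK k c X S p| + k * Ck k ε * X := by
  classical
  have hK1 := Ck_one k ε
  have hK0 : 0 < Ck k ε := by linarith
  have hCof : CofK ((N : ℝ) ^ ε) X S (co k f N S T) :=
    ⟨fun d => co_bd k f N S T d, fun d hd => hT d (co_mem hd)⟩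
  refine ⟨co k f N S T, hCof, fun d hd => co_mem hd, ?_⟩
  set c := co k f N S T with hc
  set P := Icc 1 N with hP
  have hT' : ∀ d ∈ T, 1 < d ∧ d ≤ X := fun d hd => ⟨(hT d hd).1, (hT d hd).2.1⟩
  have hid : ∑ d ∈ T, |DI k f N S d| = ∑ p ∈ P, f p * RK k c X S p := by
    have h1 : ∑ d ∈ T, |DI k f N S d| = ∑ d ∈ T, c d * DI k f N S d :=
      Finset.sum_congr rfl (fun d hd => (co_mul hd).symm)
    have h2 : ∑ p ∈ P, f p * RK k c X S p = ∑ d ∈ T, c d * ∑ p ∈ P, f p * dk k d (Fp S p) := by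
      have h3 : ∀ p ∈ P, f p * RK k c X S p = ∑ d ∈ T, c d * (f p * dk k d (Fp S p)) := by
        intro p _
        rw [hc, RK_eq k f N X S T hT', Finset.mul_sum]
        apply Finset.sum_congr rfl
        intro d _
        ring
      rw [Finset.sum_congr rfl h3, Finset.sum_comm]
      apply Finset.sum_congr rfl
      intro d _
      rw [Finset.mul_sum]
    rw [h1, h2]
    apply Finset.sum_congr rfl
    intro d _
    rw [DI_eq]
  have hself : |∑ p ∈ P, f p * (RK k c X S p - rK k c X S p)| ≤ k * Ck k ε * X := by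
    have hz : ∀ p ∈ P, Fp S p ≠ 0 → f p * (RK k c X S p - rK k c X S p) = 0 := by
      intro p _ hp
      unfold rK
      rw [if_neg hp, sub_self, mul_zero]
    have h1 : ∑ p ∈ P, f p * (RK k c X S p - rK k c X S p) =
        ∑ p ∈ P.filter (fun p : ℕ => Fp S p = 0), f p * (RK k c X S p - rK k c X S p) :=
      (Finset.sum_filter_of_ne (fun p hp hne => by
        by_contra h
        exact hne (hz p hp h))).symm
    rw [h1]
    refine (Finset.abs_sum_le_sum_abs _ _).trans ?_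
    have h2 : ∀ p ∈ P.filter (fun p : ℕ => Fp S p = 0),
        |f p * (RK k c X S p - rK k c X S p)| ≤ Ck k ε * X := by
      intro p hp
      have hp0 := (Finset.mem_filter.1 hp).2
      have h3 : rK k c X S p = 0 := by
        unfold rK
        rw [if_pos hp0]
      rw [h3, sub_zero, abs_mul]
      calc |f p| * |RK k c X S p| ≤ 1 * (Ck k ε * X) :=
            mul_le_mul (hf p) (RK_bd hε hN2 hXN hCof p) (abs_nonneg _) zero_le_one
        _ = _ := one_mul _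
    refine (Finset.sum_le_sum h2).trans ?_
    rw [Finset.sum_const, nsmul_eq_mul]
    have h3 := card_zero hS P
    calc ((P.filter (fun p : ℕ => Fp S p = 0)).card : ℝ) * (Ck k ε * X) ≤
          k * (Ck k ε * X) := mul_le_mul_of_nonneg_right h3 (by positivity)
      _ = k * Ck k ε * X := by ring
  have hsplit : ∑ p ∈ P, f p * RK k c X S p =
      ∑ p ∈ P, f p * rK k c X S p + ∑ p ∈ P, f p * (RK k c X S p - rK k c X S p) := by
    rw [← Finset.sum_add_distrib]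
    apply Finset.sum_congr rfl
    intro p _
    ring
  rw [hid, hsplit]
  have e1 := le_abs_self (∑ p ∈ P, f p * rK k c X S p)
  have e3 := le_abs_self (∑ p ∈ P, f p * (RK k c X S p - rK k c X S p))
  linarith

theorem BXBI (hLAM : St_LAM) (hFLWK : St_FLWK) (hCORK : St_CORK) (hPBXK : St_PBXK)
    (hOFDK : St_OFDK) (hVLBK : St_VLBK) (hGS : BX.St_GS) : St_BXBI := by
  classical
  intro k M hk hM A₀ hA₀
  obtain ⟨η₀, hη₀, hη₀40, ofd⟩ := hOFDK k M hk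
  obtain ⟨c₁, hc₁, pbx⟩ := hPBXK k M
  obtain ⟨εF, hεF, flw⟩ := hFLWK k hk η₀ (A₀ + 4 * c₁ + 10) hη₀ (by positivity)
  obtain ⟨CC, EE, NC, hCC, cor⟩ := hCORK k M hk hM
  obtain ⟨c₂, hc₂, vlb⟩ := hVLBK k hk
  refine ⟨EE + (2 * k + 1) + 3, min εF (min (1 / 10) (2 * η₀)),
    lt_min hεF (lt_min (by norm_num) (by positivity)), ?_⟩
  intro ε₁ hε₁ hε₁s B hB
  have hεF1 : ε₁ ≤ εF := hε₁s.trans (min_le_left _ _)
  have hε10 : ε₁ ≤ 1 / 10 := hε₁s.trans ((min_le_right _ _).trans (min_le_left _ _))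
  have hεη : ε₁ ≤ 2 * η₀ := hε₁s.trans ((min_le_right _ _).trans (min_le_right _ _))
  have hε1 : ε₁ ≤ 1 := hε10.trans (by norm_num)
  obtain ⟨η, CO, hη, hCO, ofd1⟩ := ofd ε₁ hε₁ hε1
  obtain ⟨N1, pbx1⟩ := pbx (ε₁ / 2) (by positivity) (by linarith only [hε1])
  obtain ⟨K, hKdef⟩ : ∃ K : ℝ, K = Real.exp (2 * c₁ / ε₁) := ⟨_, rfl⟩
  have hK1 : 1 ≤ K := by
    rw [hKdef]
    exact Real.one_le_exp (by positivity)
  have hK0 : 0 < K := by linarith only [hK1]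
  have hKe : Real.exp (c₁ / (ε₁ / 2)) = K := by
    rw [hKdef]
    congr 1
    field_simp
  have hPBd : ∀ N X : ℕ, N1 ≤ N → X ≤ N → ∀ S : Finset (ℤ × ℕ), Sys k M N S →
      ∀ c : ℕ → ℝ, CofK ((N : ℝ) ^ (ε₁ / 2)) X S c → ∀ n : ℤ,
      |rK k c X S n| ≤ K * (1 + |(n : ℝ)| / N) ^ (1 / 4 : ℝ) := by
    intro N X hN hX S hS c hc n
    have h1 := pbx1 N X hN hX S hS c hc n
    rwa [hKe] at h1
  obtain ⟨N3, flw1⟩ := flw ε₁ hε₁ hεF1 B (by omega)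
  obtain ⟨N4, vlb1⟩ := vlb M B (by omega) ε₁ hε₁ hε1
  obtain ⟨ρ, hρdef⟩ : ∃ ρ : ℝ, ρ = Real.exp (-((A₀ + 4 * c₁ + 10) / ε₁)) := ⟨_, rfl⟩
  have hρ0 : 0 < ρ := by rw [hρdef]; exact Real.exp_pos _
  have hρ1 : ρ ≤ 1 := by
    rw [hρdef, Real.exp_le_one_iff]
    have : 0 ≤ (A₀ + 4 * c₁ + 10) / ε₁ := by positivity
    linarith only [this]
  obtain ⟨κ, hκdef⟩ : ∃ κ : ℝ, κ = min 1 (min c₂ (c₂ ^ 2 * ρ)) := ⟨_, rfl⟩
  have hκ0 : 0 < κ := by
    rw [hκdef]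
    exact lt_min one_pos (lt_min hc₂ (by positivity))
  have hκ1 : κ ≤ 1 := by rw [hκdef]; exact min_le_left _ _
  have hκ2 : κ ≤ c₂ := by rw [hκdef]; exact (min_le_right _ _).trans (min_le_left _ _)
  have hκ3 : κ ≤ c₂ ^ 2 * ρ := by rw [hκdef]; exact (min_le_right _ _).trans (min_le_right _ _)
  obtain ⟨N5, err⟩ := ev_errK CC κ EE (2 * k + 1) hCC hκ0
  obtain ⟨N6, po⟩ := ev_powK CO κ η (2 * k + 1) hκ0 hη
  obtain ⟨N7, pe⟩ := ev_powK (k * Ck k (ε₁ / 2)) κ (1 / 2) (2 * k + 1) hκ0 (by norm_num)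
  obtain ⟨N8, hL3⟩ : ∃ N8 : ℕ, ∀ N : ℕ, N8 ≤ N → max 3 (k : ℝ) ≤ Real.log N := by
    have := (Real.tendsto_log_atTop.comp
      (tendsto_natCast_atTop_atTop (R := ℝ))).eventually_ge_atTop (max 3 (k : ℝ))
    exact Filter.eventually_atTop.1 this
  have hpw : ∀ s : ℝ, 0 < s → ∃ N9 : ℕ, ∀ N : ℕ, N9 ≤ N → (3 : ℝ) ≤ (N : ℝ) ^ s := by
    intro s hs
    have := ((tendsto_rpow_atTop hs).comp
      (tendsto_natCast_atTop_atTop (R := ℝ))).eventually_ge_atTop 3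
    exact Filter.eventually_atTop.1 this
  obtain ⟨N9, hp9⟩ := hpw η₀ hη₀
  obtain ⟨N10, hp10⟩ := hpw ε₁ hε₁
  obtain ⟨N11, hp11⟩ := hpw (1 / 20) (by norm_num)
  refine ⟨1462500 / ε₁ ^ 2 * K ^ 2, N1 + N3 + N4 + N5 + N6 + N7 + N8 + N9 + N10 + N11 + NC + 2,
    by positivity, ?_⟩
  intro N hN f hf 𝒜 h𝒜 hdis T hT
  have hNr : (2 : ℝ) ≤ N := by exact_mod_cast (by omega : 2 ≤ N)
  have hN0 : (0 : ℝ) < N := by linarith only [hNr]
  have hN1 : (1 : ℝ) ≤ N := by linarith only [hNr]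
  obtain ⟨L, hL⟩ : ∃ L : ℝ, L = Real.log N := ⟨_, rfl⟩
  have hL3' : 3 ≤ L := by rw [hL]; exact (le_max_left _ _).trans (hL3 N (by omega))
  have hLk : (k : ℝ) ≤ L := by rw [hL]; exact (le_max_right _ _).trans (hL3 N (by omega))
  have hL0 : 0 < L := by linarith only [hL3']
  have hL1 : 1 ≤ L := by linarith only [hL3']
  have hlogL : 1 ≤ Real.log L := by
    rw [Real.le_log_iff_exp_le hL0]
    have := Real.exp_one_lt_d9
    linarith only [this, hL3']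
  obtain ⟨V, hVdef⟩ : ∃ V : ℝ, V = Vk k (P1 N B ε₁) := ⟨_, rfl⟩
  have hVl : c₂ / L ^ k ≤ V := by
    have h1 := (vlb1 N (by omega)).1
    rw [← hL, ← hVdef] at h1
    refine le_trans ?_ h1
    rw [div_eq_mul_one_div, ← one_div_pow]
    apply mul_le_mul_of_nonneg_left _ hc₂.le
    apply pow_le_pow_left₀ (by positivity)
    rw [div_le_div_iff₀ hL0 (by positivity)]
    have hBr : (1 : ℝ) ≤ B := by exact_mod_cast (by omega : 1 ≤ B)
    have h2 : 1 ≤ (B : ℝ) * Real.log L := by nlinarith only [hBr, hlogL]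
    have h3 : ε₁ * L ≤ 1 * L := mul_le_mul_of_nonneg_right hε1 hL0.le
    have h4 : 1 * L ≤ (B : ℝ) * Real.log L * L := mul_le_mul_of_nonneg_right h2 hL0.le
    linarith only [h3, h4]
  have hV0 : 0 < V := lt_of_lt_of_le (by positivity) hVl
  have hV2 : c₂ ^ 2 / L ^ (2 * k) ≤ V ^ 2 := by
    have e1 : c₂ ^ 2 / L ^ (2 * k) = (c₂ / L ^ k) ^ 2 := by
      rw [div_pow, ← pow_mul, mul_comm k 2]
    rw [e1]
    exact pow_le_pow_left₀ (by positivity) hVl 2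
  rcases 𝒜.eq_empty_or_nonempty with hemp | ⟨S₀, hS₀⟩
  · rw [hemp, sum_empty, ← hVdef]
    positivity
  obtain ⟨y, hy⟩ : ∃ y : ℝ, y = N := ⟨_, rfl⟩
  have hy0 : 0 < y := by rw [hy]; positivity
  -- the small error
  obtain ⟨e, he⟩ : ∃ e : ℝ, e = κ * N / L ^ (2 * k + 1) := ⟨_, rfl⟩
  have he0 : 0 ≤ e := by rw [he]; positivity
  have hey : e ≤ κ / L ^ (2 * k) * y := by
    have h1 : κ * N / L ^ (2 * k + 1) ≤ κ * N / L ^ (2 * k) := by
      apply div_le_div_of_nonneg_left (by positivity) (by positivity)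
      exact pow_le_pow_right₀ hL1 (by omega)
    rw [he, hy]
    calc κ * N / L ^ (2 * k + 1) ≤ κ * N / L ^ (2 * k) := h1
      _ = κ / L ^ (2 * k) * N := by ring
  have he1 : e ≤ ρ * V ^ 2 * y := by
    refine hey.trans ?_
    apply mul_le_mul_of_nonneg_right _ hy0.le
    calc κ / L ^ (2 * k) ≤ (c₂ ^ 2 * ρ) / L ^ (2 * k) := by gcongr
      _ = ρ * (c₂ ^ 2 / L ^ (2 * k)) := by ring
      _ ≤ ρ * V ^ 2 := by gcongr
  have he2 : e ≤ V * y := by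
    refine hey.trans ?_
    apply mul_le_mul_of_nonneg_right _ hy0.le
    refine le_trans ?_ hVl
    calc κ / L ^ (2 * k) ≤ c₂ / L ^ (2 * k) := by gcongr
      _ ≤ c₂ / L ^ k := by
          apply div_le_div_of_nonneg_left hc₂.le (by positivity)
          exact pow_le_pow_right₀ hL1 (by omega)
  have he3 : e ≤ y := by
    refine hey.trans ?_
    have h1 : κ / L ^ (2 * k) ≤ 1 := by
      rw [div_le_one (by positivity)]
      exact hκ1.trans (one_le_pow₀ hL1)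
    calc κ / L ^ (2 * k) * y ≤ 1 * y := mul_le_mul_of_nonneg_right h1 hy0.le
      _ = y := one_mul y
  have he4 : e ^ 2 ≤ ρ * V ^ 2 * y ^ 2 := by
    calc e ^ 2 = e * e := sq e
      _ ≤ (ρ * V ^ 2 * y) * y := mul_le_mul he1 he3 he0 (by positivity)
      _ = _ := by ring
  -- the sets and weights
  obtain ⟨X, hX⟩ : ∃ X : ℕ, X = ⌊(N : ℝ) ^ (49 / 100 : ℝ)⌋₊ := ⟨_, rfl⟩
  have hXθ : (X : ℝ) ≤ (N : ℝ) ^ (49 / 100 : ℝ) := by
    rw [hX]
    exact Nat.floor_le (Real.rpow_nonneg hN0.le _)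
  have hXN : X ≤ N := by
    have : (X : ℝ) ≤ N := hXθ.trans (by
      calc (N : ℝ) ^ (49 / 100 : ℝ) ≤ (N : ℝ) ^ (1 : ℝ) :=
            Real.rpow_le_rpow_of_exponent_le hN1 (by norm_num)
        _ = N := Real.rpow_one _)
    exact_mod_cast this
  obtain ⟨D, hD⟩ : ∃ D : ℕ, D = ⌊(N : ℝ) ^ η₀⌋₊ := ⟨_, rfl⟩
  have hfl : ∀ S : Finset (ℤ × ℕ), ∃ th dl : ℕ → ℝ, DW (PK N B ε₁ S) D L th ∧
      DW (PK N B ε₁ S) D L dl ∧
      (∀ m : ℤ, xx (PK N B ε₁ S) m ≤ Ev th D m ∧ Ev th D m - xx (PK N B ε₁ S) m ≤ Ev dl D m) ∧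
      |hatk k th D - Vk k (PK N B ε₁ S)| ≤ ρ * Vk k (PK N B ε₁ S) ∧
      |hatk k dl D| ≤ ρ * Vk k (PK N B ε₁ S) := by
    intro S
    have h := flw1 N (by omega) D hD (PK N B ε₁ S) (filter_subset _ _)
    rwa [← hL, ← hρdef] at h
  choose th dl hth hdl hxx hhat hhdl using hfl
  have hVS : ∀ S ∈ 𝒜, V ≤ Vk k (PK N B ε₁ S) ∧ Vk k (PK N B ε₁ S) ≤ 2 * V := by
    intro S hS
    have h := (vlb1 N (by omega)).2.2 S (h𝒜 S hS).sys
    rwa [← hVdef] at h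
  have hhat2 : ∀ S ∈ 𝒜, |hatk k (th S) D| ≤ 4 * V := by
    intro S hS
    obtain ⟨h3, h4⟩ := hVS S hS
    have h5 : 0 < Vk k (PK N B ε₁ S) := lt_of_lt_of_le hV0 h3
    have h1 : |hatk k (th S) D| ≤ |hatk k (th S) D - Vk k (PK N B ε₁ S)| + |Vk k (PK N B ε₁ S)| := by
      have := abs_add_le (hatk k (th S) D - Vk k (PK N B ε₁ S)) (Vk k (PK N B ε₁ S))
      simpa using this
    rw [abs_of_pos h5] at h1
    have h2 : ρ * Vk k (PK N B ε₁ S) ≤ 1 * Vk k (PK N B ε₁ S) :=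
      mul_le_mul_of_nonneg_right hρ1 h5.le
    linarith only [h1, h2, hhat S, h4]
  have hhdl2 : ∀ S ∈ 𝒜, |hatk k (dl S) D| ≤ 2 * (ρ * V) := by
    intro S hS
    have h4 := mul_le_mul_of_nonneg_left (hVS S hS).2 hρ0.le
    linarith only [hhdl S, h4]
  have hNη : (1 : ℝ) ≤ (N : ℝ) ^ η₀ := Real.one_le_rpow hN1 hη₀.le
  have hD1 : 1 ≤ D := by
    rw [hD]
    exact Nat.le_floor (by exact_mod_cast hNη)
  have hDη : (D : ℝ) ≤ (N : ℝ) ^ η₀ := by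
    rw [hD]
    exact Nat.floor_le (by positivity)
  have hP1 : ∀ S : Finset (ℤ × ℕ), ∀ p ∈ PK N B ε₁ S, p.Prime ∧ L ^ B ≤ (p : ℝ) ∧ gp S p := by
    intro S p hp
    unfold PK P1 at hp
    rw [mem_filter, mem_filter] at hp
    rw [hL]
    exact ⟨hp.1.2.1, hp.1.2.2.1, hp.2⟩
  have hyB : 2 ≤ L ^ B := by
    calc (2 : ℝ) ≤ L := by linarith only [hL3']
      _ ≤ L ^ B := le_self_pow₀ hL1 (by omega)
  have hkB : (k : ℝ) ≤ L ^ B := hLk.trans (le_self_pow₀ hL1 (by omega))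
  have hP2 : ∀ S : Finset (ℤ × ℕ), ∀ p ∈ PK N B ε₁ S,
      p.Prime ∧ (p : ℝ) < (N : ℝ) ^ ε₁ ∧ gp S p := by
    intro S p hp
    have h1 := hP1 S p hp
    unfold PK P1 at hp
    rw [mem_filter, mem_filter] at hp
    refine ⟨h1.1, ?_, h1.2.2⟩
    have h2 := hp.1.2.2.2
    unfold tt at h2
    rw [← hL, div_lt_iff₀ hL0] at h2
    have hp0 : (0 : ℝ) < p := by exact_mod_cast h1.1.pos
    rw [← Real.log_lt_log_iff hp0 (by positivity), Real.log_rpow hN0, ← hL]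
    exact h2
  obtain ⟨z, hz⟩ : ∃ z : ℕ, z = 2 := ⟨_, rfl⟩
  have hzr : (z : ℝ) = 2 := by rw [hz]; norm_num
  have hz4 : (z : ℝ) ≤ (N : ℝ) ^ η₀ := by
    rw [hzr]
    linarith only [hp9 N (by omega)]
  have hz5 : (z : ℝ) < (N : ℝ) ^ ε₁ := by
    rw [hzr]
    linarith only [hp10 N (by omega)]
  obtain ⟨lam, hlamd⟩ : ∃ lam : ℕ → ℝ, lam = lam1 := ⟨_, rfl⟩
  have hlam : SWs z lam := by
    rw [hz, hlamd]
    exact hLAM.1
  have hnu : ∀ n : ℤ, BX.nuS lam z n = 1 := by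
    rw [hz, hlamd]
    exact hLAM.2.1
  have hLF1 : LF lam z = 1 := by
    rw [hz, hlamd]
    exact hLAM.2.2
  -- CORK at `N` and `2N`
  have hge : ∀ N' : ℕ, (N' = N ∨ N' = 2 * N) → N ≤ N' := by
    intro N' h
    rcases h with h | h <;> omega
  have hzN' : ∀ N' : ℕ, N ≤ N' → (z : ℝ) ≤ (N' : ℝ) ^ (1 / 20 : ℝ) := by
    intro N' hN'
    have hMN : (N : ℝ) ≤ N' := by exact_mod_cast hN'
    calc (z : ℝ) ≤ (N : ℝ) ^ (1 / 20 : ℝ) := by
          rw [hzr]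
          linarith only [hp11 N (by omega)]
      _ ≤ (N' : ℝ) ^ (1 / 20 : ℝ) := Real.rpow_le_rpow hN0.le hMN (by norm_num)
  have hDN' : ∀ N' : ℕ, N ≤ N' → (D : ℝ) ≤ (N' : ℝ) ^ (1 / 20 : ℝ) := by
    intro N' hN'
    have hMN : (N : ℝ) ≤ N' := by exact_mod_cast hN'
    calc (D : ℝ) ≤ (N : ℝ) ^ η₀ := hDη
      _ ≤ (N : ℝ) ^ (1 / 20 : ℝ) :=
          Real.rpow_le_rpow_of_exponent_le hN1 (by linarith only [hη₀40])
      _ ≤ (N' : ℝ) ^ (1 / 20 : ℝ) := Real.rpow_le_rpow hN0.le hMN (by norm_num)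
  have cuA : ∀ N' : ℕ, (N' = N ∨ N' = 2 * N) → ∀ S ∈ 𝒜, ∀ t : ℕ → ℝ,
      DW (PK N B ε₁ S) D L t →
      |∑' n : ℤ, Wt N' n * BX.nuS lam z n * Ev t D (Fp S n) -
        N' * LF lam z * hatk k t D| ≤ e := by
    intro N' hN' S hS t h1
    have hNN := hge N' hN'
    have h3 := (cor N' (by omega) z D (hzN' N' hNN) hD1 (hDN' N' hNN) lam hlam S
      (SysK.two (h𝒜 S hS) hNN) (PK N B ε₁ S) (L ^ B) hyB hkB (hP1 S) L t hL1 h1).2
    refine h3.trans ?_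
    have h4 := err N (by omega) B hB N' hN'
    rw [← hL] at h4
    rw [he]
    exact h4
  have cuB : ∀ N' : ℕ, (N' = N ∨ N' = 2 * N) → ∀ S ∈ 𝒜, ∀ S' ∈ 𝒜, S ≠ S' → ∀ t t' : ℕ → ℝ,
      DW (PK N B ε₁ S) D L t → DW (PK N B ε₁ S') D L t' →
      |∑' n : ℤ, Wt N' n * BX.nuS lam z n * (Ev t D (Fp S n) * Ev t' D (Fp S' n)) -
        N' * LF lam z * (hatk k t D * hatk k t' D)| ≤ e := by
    intro N' hN' S hS S' hS' hSS t t' h1 h2
    have hNN := hge N' hN'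
    have h3 := (cor N' (by omega) z D (hzN' N' hNN) hD1 (hDN' N' hNN) lam hlam S
      (SysK.two (h𝒜 S hS) hNN) (PK N B ε₁ S) (L ^ B) hyB hkB (hP1 S) L t hL1 h1).1 S'
      (SysK.two (h𝒜 S' hS') hNN) (hdis S hS S' hS' hSS) (PK N B ε₁ S') (hP1 S') t' h2
    refine h3.trans ?_
    have h4 := err N (by omega) B hB N' hN'
    rw [← hL] at h4
    rw [he]
    exact h4
  have hone : 1 ≤ 1 / ε₁ := by rw [le_div_iff₀ hε₁]; linarith only [hε1]
  have h2NLF : ((2 * N : ℕ) : ℝ) * |LF lam z| ≤ 16 / ε₁ * y := by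
    rw [hLF1, abs_one, mul_one]
    push_cast
    rw [← hy]
    have h1 : 1 * y ≤ 1 / ε₁ * y := mul_le_mul_of_nonneg_right hone hy0.le
    have h2 : 16 / ε₁ * y = 16 * (1 / ε₁ * y) := by ring
    linarith only [h1, h2, hy0]
  have cuA2 : ∀ S ∈ 𝒜, ∀ t : ℕ → ℝ, DW (PK N B ε₁ S) D L t → ∀ h : ℝ, |hatk k t D| ≤ h →
      ∑' n : ℤ, Wt (2 * N) n * BX.nuS lam z n * Ev t D (Fp S n) ≤ 16 / ε₁ * y * h + e := by
    intro S hS t h1 h hh
    have h3 := (abs_le.1 (cuA (2 * N) (Or.inr rfl) S hS t h1)).2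
    have h4 : ((2 * N : ℕ) : ℝ) * LF lam z * hatk k t D ≤ 16 / ε₁ * y * h := by
      refine (le_abs_self _).trans ?_
      rw [abs_mul, abs_mul, Nat.abs_cast]
      exact mul_le_mul h2NLF hh (by positivity) (by positivity)
    linarith only [h3, h4]
  have cuB2 : ∀ S ∈ 𝒜, ∀ S' ∈ 𝒜, S ≠ S' → ∀ t t' : ℕ → ℝ,
      DW (PK N B ε₁ S) D L t → DW (PK N B ε₁ S') D L t' →
      ∀ h h' : ℝ, 0 ≤ h → |hatk k t D| ≤ h → |hatk k t' D| ≤ h' →
      ∑' n : ℤ, Wt (2 * N) n * BX.nuS lam z n * (Ev t D (Fp S n) * Ev t' D (Fp S' n)) ≤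
        16 / ε₁ * y * (h * h') + e := by
    intro S hS S' hS' hSS t t' h1 h2 h h' hh0 hh hh'
    have h3 := (abs_le.1 (cuB (2 * N) (Or.inr rfl) S hS S' hS' hSS t t' h1 h2)).2
    have h4 : ((2 * N : ℕ) : ℝ) * LF lam z * (hatk k t D * hatk k t' D) ≤
        16 / ε₁ * y * (h * h') := by
      refine (le_abs_self _).trans ?_
      rw [abs_mul, abs_mul, abs_mul, Nat.abs_cast]
      have h5 : |hatk k t D| * |hatk k t' D| ≤ h * h' := mul_le_mul hh hh' (abs_nonneg _) hh0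
      exact mul_le_mul h2NLF h5 (by positivity) (by positivity)
    linarith only [h3, h4]
  -- coefficients
  have hc : ∀ S : Finset (ℤ × ℕ), ∃ c : ℕ → ℝ, S ∈ 𝒜 → (CofK ((N : ℝ) ^ (ε₁ / 2)) X S c ∧
      (∀ d, c d ≠ 0 → d ∈ T S) ∧
      ∑ d ∈ T S, |DI k (fun p => f p * xx (PK N B ε₁ S) (Fp S p)) N S d| ≤
        |∑ p ∈ Icc 1 N, f p * (xx (PK N B ε₁ S) (Fp S p) *
          rK k c X S p)| + k * Ck k (ε₁ / 2) * X) := by
    intro S
    by_cases hS : S ∈ 𝒜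
    · obtain ⟨c, h1, h2, h3⟩ := prI k M (ε := ε₁ / 2) (by positivity) N X (by omega) hXN
        (fun p => f p * xx (PK N B ε₁ S) (Fp S p))
        (fun p => by
          rw [abs_mul]
          calc |f p| * |xx (PK N B ε₁ S) (Fp S p)| ≤ 1 * 1 :=
                mul_le_mul (hf p) (abs_xx _ _) (abs_nonneg _) zero_le_one
            _ = 1 := mul_one 1) S (h𝒜 S hS).sys (T S)
        (fun d hd => by rw [hX]; exact (hT S hS d hd).1)
      refine ⟨c, fun _ => ⟨h1, h2, ?_⟩⟩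
      have h4 : ∑ p ∈ Icc 1 N, f p * xx (PK N B ε₁ S) (Fp S p) * rK k c X S p =
          ∑ p ∈ Icc 1 N, f p * (xx (PK N B ε₁ S) (Fp S p) * rK k c X S p) := by
        refine sum_congr rfl fun p _ => ?_
        ring
      rw [← h4]
      exact h3
    · exact ⟨0, fun h => absurd h hS⟩
  choose c hc using hc
  have hR : ∀ S ∈ 𝒜, ∀ n : ℤ, |rK k (c S) X S n| ≤
      K * (1 + |(n : ℝ)| / N) ^ (1 / 4 : ℝ) := fun S hS n =>
    hPBd N X (by omega) hXN S (h𝒜 S hS).sys (c S) (hc S hS).1 n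
  have hbR : ∀ S ∈ 𝒜, ∀ n : ℤ, |rK k (c S) X S n| ≤ Ck k (ε₁ / 2) * X := fun S hS n =>
    rK_bd (by positivity) (by omega) hXN (hc S hS).1 n
  have hCk1 := Ck_one k (ε₁ / 2)
  have hw25 : ∀ p ∈ Icc 1 N,
      (1 : ℝ) ≤ 25 * (fun n : ℤ => Wt N n * BX.nuS lam z n) (p : ℤ) := by
    intro p hp
    rw [mem_Icc] at hp
    simp only [hnu, mul_one]
    unfold Wt
    have h0 : 0 ≤ ((p : ℤ) : ℝ) / N := by positivity
    have h1 : ((p : ℤ) : ℝ) / N ≤ 1 := by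
      rw [div_le_one hN0]
      push_cast
      exact_mod_cast hp.2
    have h2 : (((p : ℤ) : ℝ) / N) ^ 2 ≤ 1 := pow_le_one₀ h0 h1
    have h3 : Real.exp (-Real.pi) ≤ Real.exp (-Real.pi * (((p : ℤ) : ℝ) / N) ^ 2) := by
      apply Real.exp_le_exp.2
      nlinarith only [Real.pi_pos, h2]
    linarith only [BX.TaskBK.exp_neg_pi, h3]
  have hFs : ∑ p ∈ Icc 1 N, f p ^ 2 ≤ 225 / ε₁ * y := by
    have h1 : ∑ p ∈ Icc 1 N, f p ^ 2 ≤ ∑ p ∈ Icc 1 N, (1 : ℝ) := by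
      refine sum_le_sum fun p _ => ?_
      rw [← sq_abs]
      exact pow_le_one₀ (abs_nonneg _) (hf p)
    rw [sum_const, Nat.card_Icc, nsmul_eq_mul, mul_one, Nat.add_sub_cancel, ← hy] at h1
    have h2 : 1 * y ≤ 1 / ε₁ * y := mul_le_mul_of_nonneg_right hone hy0.le
    have h3 : 225 / ε₁ * y = 225 * (1 / ε₁ * y) := by ring
    linarith only [h1, h2, h3, hy0]
  -- `G` and `O`
  obtain ⟨G, hG⟩ : ∃ G : ℝ, G = 130 / ε₁ * K ^ 2 * (y * V) := ⟨_, rfl⟩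
  obtain ⟨O, hO⟩ : ∃ O : ℝ, O = 517 / ε₁ * K ^ 2 * (ρ * V ^ 2 * y) := ⟨_, rfl⟩
  have hG0 : 0 ≤ G := by rw [hG]; positivity
  have hO0 : 0 ≤ O := by rw [hO]; positivity
  have hKK : 1 ≤ K ^ 2 := one_le_pow₀ hK1
  have hGle : ∀ S ∈ 𝒜, ∑' n : ℤ, Wt N n * BX.nuS lam z n *
      ((xx (PK N B ε₁ S) (Fp S n) * rK k (c S) X S n) *
        (xx (PK N B ε₁ S) (Fp S n) * rK k (c S) X S n)) ≤ G := by
    intro S hS
    have h1 := cuA2 S hS (th S) (hth S) (4 * V) (hhat2 S hS)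
    have h2 := diag_gen (N := N) (z := z) (x := fun n => xx (PK N B ε₁ S) (Fp S n))
      (t := fun n => Ev (th S) D (Fp S n)) (R := fun n => rK k (c S) X S n) (by omega) hlam.sw hGS
      hK0.le (fun n => xx_or _ _) (fun n => (hxx S (Fp S n)).1) (hbR S hS)
      (fun n => Ev_bdd (hth S) _) (hR S hS) h1
    refine h2.trans ?_
    rw [hG]
    have h3 : 16 / ε₁ * y * (4 * V) + e ≤ 65 / ε₁ * (y * V) := by
      have h4 : 1 * (V * y) ≤ 1 / ε₁ * (V * y) :=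
        mul_le_mul_of_nonneg_right hone (by positivity)
      have h5 : 65 / ε₁ * (y * V) = 64 / ε₁ * (y * V) + 1 / ε₁ * (V * y) := by ring
      have h6 : 16 / ε₁ * y * (4 * V) = 64 / ε₁ * (y * V) := by ring
      linarith only [h4, h5, h6, he2]
    calc 2 * K ^ 2 * (16 / ε₁ * y * (4 * V) + e) ≤ 2 * K ^ 2 * (65 / ε₁ * (y * V)) := by
          gcongr
      _ = 130 / ε₁ * K ^ 2 * (y * V) := by ring
  have hOle : ∀ S ∈ 𝒜, ∀ S' ∈ 𝒜, S ≠ S' → |∑' n : ℤ, Wt N n * BX.nuS lam z n *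
      ((xx (PK N B ε₁ S) (Fp S n) * rK k (c S) X S n) *
        (xx (PK N B ε₁ S') (Fp S' n) * rK k (c S') X S' n))| ≤ O := by
    intro S hS S' hS' hSS
    have hE0 : ∀ S : Finset (ℤ × ℕ), ∀ m : ℤ, 0 ≤ Ev (th S) D m := fun S m =>
      (xx_nonneg _ _).trans (hxx S m).1
    have h1 := ofd1 N z D X (by omega) hz4 hz5 hDη hX lam hlam S S' (h𝒜 S hS) (h𝒜 S' hS')
      (hdis S hS S' hS' hSS) (PK N B ε₁ S) (PK N B ε₁ S') (hP2 S) (hP2 S') (th S) (th S')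
      (by rw [← hL]; exact hth S) (by rw [← hL]; exact hth S') (hE0 S) (hE0 S') (c S) (c S')
      (hc S hS).1 (hc S' hS').1
      (fun d hd => hT S hS d ((hc S hS).2.1 d hd))
      (fun d hd => hT S' hS' d ((hc S' hS').2.1 d hd))
    have h2 := po N (by omega)
    rw [← hL, ← he] at h2
    have h3 := cuB2 S hS S' hS' hSS (dl S) (th S') (hdl S) (hth S') (2 * (ρ * V)) (4 * V)
      (by positivity) (hhdl2 S hS) (hhat2 S' hS')
    have h4 := cuB2 S hS S' hS' hSS (th S) (dl S') (hth S) (hdl S') (4 * V) (2 * (ρ * V))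
      (by positivity) (hhat2 S hS) (hhdl2 S' hS')
    have e4 : 16 / ε₁ * y * (4 * V * (2 * (ρ * V))) + e =
        16 / ε₁ * y * (2 * (ρ * V) * (4 * V)) + e := by ring
    rw [e4] at h4
    have h5 := off_gen (N := N) (z := z) (x := fun n => xx (PK N B ε₁ S) (Fp S n))
      (x' := fun n => xx (PK N B ε₁ S') (Fp S' n))
      (t := fun n => Ev (th S) D (Fp S n)) (t' := fun n => Ev (th S') D (Fp S' n))
      (s := fun n => Ev (dl S) D (Fp S n)) (s' := fun n => Ev (dl S') D (Fp S' n))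
      (R := fun n => rK k (c S) X S n) (R' := fun n => rK k (c S') X S' n) (by omega) hlam.sw hGS
      hK0.le (fun n => xx_or _ _) (fun n => xx_or _ _) (fun n => (hxx S (Fp S n)).1)
      (fun n => (hxx S' (Fp S' n)).1) (fun n => (hxx S (Fp S n)).2) (fun n => (hxx S' (Fp S' n)).2)
      (hbR S hS) (hbR S' hS') (fun n => Ev_bdd (hth S) _) (fun n => Ev_bdd (hth S') _)
      (fun n => Ev_bdd (hdl S) _) (fun n => Ev_bdd (hdl S') _) (hR S hS) (hR S' hS')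
      (h1.trans h2) h3 h4
    refine h5.trans ?_
    rw [hO]
    obtain ⟨Q, hQ⟩ : ∃ Q : ℝ, Q = ρ * V ^ 2 * y := ⟨_, rfl⟩
    rw [← hQ] at he1 ⊢
    have hQ0 : 0 ≤ Q := by rw [hQ]; positivity
    have e1 : 16 / ε₁ * y * (2 * (ρ * V) * (4 * V)) = 128 / ε₁ * Q := by rw [hQ]; ring
    rw [e1]
    have h6 : 1 * Q ≤ 1 / ε₁ * Q := mul_le_mul_of_nonneg_right hone hQ0
    have h7 : 128 / ε₁ * Q + e ≤ 129 / ε₁ * Q := by
      have : 129 / ε₁ * Q = 128 / ε₁ * Q + 1 / ε₁ * Q := by ring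
      linarith only [this, h6, he1]
    have h8 : e ≤ 1 / ε₁ * K ^ 2 * Q := by
      have h9 : 0 ≤ 1 / ε₁ * Q := by positivity
      have h10 : 1 / ε₁ * Q * 1 ≤ 1 / ε₁ * Q * K ^ 2 := mul_le_mul_of_nonneg_left hKK h9
      have h11 : 1 / ε₁ * K ^ 2 * Q = 1 / ε₁ * Q * K ^ 2 := by ring
      linarith only [h6, h10, h11, he1]
    calc e + 4 * K ^ 2 * (128 / ε₁ * Q + e) ≤ 1 / ε₁ * K ^ 2 * Q + 4 * K ^ 2 * (129 / ε₁ * Q) := by
          gcongr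
      _ = 517 / ε₁ * K ^ 2 * Q := by ring
  have hdu := Pool.Agent.W74.SG.DUg.du (fun n : ℤ => Wt N n * BX.nuS lam z n)
    (fun n => BX.TaskBK.w_nonneg N z lam n)
    (Icc 1 N) hw25 𝒜
    (fun S n => xx (PK N B ε₁ S) (Fp S n) * rK k (c S) X S n) f
    (fun S hS S' hS' => by
      refine summ_mul (K := (Ck k (ε₁ / 2) * X) * (Ck k (ε₁ / 2) * X)) (by omega) hlam.sw
        (fun n => ?_)
      have b : ∀ S ∈ 𝒜, |xx (PK N B ε₁ S) (Fp S n) * rK k (c S) X S n| ≤ Ck k (ε₁ / 2) * X := by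
        intro S hS
        rw [abs_mul]
        calc |xx (PK N B ε₁ S) (Fp S n)| * |rK k (c S) X S n| ≤ 1 * (Ck k (ε₁ / 2) * X) :=
              mul_le_mul (abs_xx _ _) (hbR S hS n) (abs_nonneg _) zero_le_one
          _ = Ck k (ε₁ / 2) * X := one_mul _
      rw [abs_mul]
      exact mul_le_mul (b S hS) (b S' hS') (abs_nonneg _) (by positivity))
    G O hGle hG0 hO0 hOle
  -- the error
  obtain ⟨E, hEe⟩ : ∃ E : ℝ, E = k * Ck k (ε₁ / 2) * X := ⟨_, rfl⟩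
  have hE0 : 0 ≤ E := by rw [hEe]; positivity
  have hE : E ≤ e := by
    have h2 : (X : ℝ) ≤ (N : ℝ) ^ (1 - 1 / 2 : ℝ) :=
      hXθ.trans (Real.rpow_le_rpow_of_exponent_le hN1 (by norm_num))
    have h4 := pe N (by omega)
    rw [← hL, ← he] at h4
    refine le_trans ?_ h4
    rw [hEe]
    gcongr
  have hE2 : E ^ 2 ≤ ρ * V ^ 2 * y ^ 2 := (pow_le_pow_left₀ hE0 hE 2).trans he4
  have hSa : ∑ S ∈ 𝒜, (∑ d ∈ T S,
      |DI k (fun p => f p * xx (PK N B ε₁ S) (Fp S p)) N S d|) ^ 2 ≤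
      2 * (∑ S ∈ 𝒜, (∑ p ∈ Icc 1 N,
        f p * (fun (S : Finset (ℤ × ℕ)) (n : ℤ) => xx (PK N B ε₁ S) (Fp S n) *
          rK k (c S) X S n) S p) ^ 2) +
        2 * 𝒜.card * E ^ 2 := by
    calc ∑ S ∈ 𝒜, (∑ d ∈ T S, |DI k (fun p => f p * xx (PK N B ε₁ S) (Fp S p)) N S d|) ^ 2
        ≤ ∑ S ∈ 𝒜, (2 * (∑ p ∈ Icc 1 N,
            f p * (fun (S : Finset (ℤ × ℕ)) (n : ℤ) => xx (PK N B ε₁ S) (Fp S n) *
              rK k (c S) X S n) S p) ^ 2 + 2 * E ^ 2) := by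
          refine sum_le_sum fun S hS => ?_
          have h1 := (hc S hS).2.2
          rw [← hEe] at h1
          have h2 := pow_le_pow_left₀ (sum_nonneg fun d _ => abs_nonneg _) h1 2
          exact h2.trans (BX.TaskBK.two_sq _ _)
      _ = _ := by
          rw [sum_add_distrib, ← mul_sum, sum_const, nsmul_eq_mul]
          ring
  have hfin := numK hy0 hV0 hK1 hρ0 hε₁ (Nat.cast_nonneg 𝒜.card) hFs hG hO hdu hE2 hSa
  rw [← hVdef, ← hy]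
  refine hfin.trans ?_
  apply mul_le_mul_of_nonneg_left _ (sq_nonneg _)
  have h1 := fin_constK (A₀ := A₀) hε₁ hε10 hc₁
  rw [← hKdef, ← hρdef] at h1
  have h2 : (5816250 / ε₁ ^ 2 * K ^ 2 + 2) * ρ * V ^ 2 * (𝒜.card : ℝ) ≤
      Real.exp (-(A₀ / ε₁)) * V ^ 2 * 𝒜.card := by
    gcongr
  linarith only [h2]

end Pool.Agent.W973.KI
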